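import Pool.Agent.Helper35.WC.Range
import Pool.Agent.Helper75.WC.Abel
import Pool.Agent.Helper75.WC.Tame

/-! Project WC. Finite abelian extensions `K / R` and Tate classes: it is enough to know the
intermediate fields `M` with a cyclic group `Gal(M / R)`. -/

set_option autoImplicit false

namespace Pool.Agent.Helper48.WC

open IntermediateField Pool.Agent.Helper75.QC Pool.Agent.Helper35.TD Pool.Agent.Helper75.WC
  Pool.Agent.Helper35.WC

/-- A finite extension of a finitely generated field is finitely generated. -/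
theorem fg_restrict {Ω K : Type} [Field Ω] [Field K] [Algebra Ω K] (R : IntermediateField Ω K)
    (hR : R.FG) (M : IntermediateField R K) [FiniteDimensional R M] :
    (M.restrictScalars Ω : IntermediateField Ω K).FG := by
  classical
  obtain ⟨S, hS⟩ := hR
  obtain ⟨t, ht⟩ : (⊤ : IntermediateField R M).FG := fg_of_noetherian _
  have h1 : M = adjoin R (M.val '' (t : Set M)) := by
    have h2 : (adjoin R (t : Set M)).map M.val = adjoin R (M.val '' (t : Set M)) :=
      adjoin_map _ _ _
    rw [← h2, ht, ← AlgHom.fieldRange_eq_map, fieldRange_val]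
  have h3 : (M.restrictScalars Ω : IntermediateField Ω K) =
      adjoin Ω ((S : Set K) ∪ M.val '' (t : Set M)) := by
    conv_lhs => rw [h1]
    subst hS
    rw [adjoin_adjoin_left]
  rw [h3]
  exact fg_adjoin_of_finite ((Finset.finite_toSet S).union ((Finset.finite_toSet t).image _))

theorem fg_top_of_fg {Ω K : Type} [Field Ω] [Field K] [Algebra Ω K] {N : IntermediateField Ω K}
    (hN : N.FG) : (⊤ : IntermediateField Ω N).FG := by
  obtain ⟨S, hS⟩ := hN
  subst hS
  exact fg_sub (Finset.finite_toSet S)

theorem fg_of_fg_top {Ω K : Type} [Field Ω] [Field K] [Algebra Ω K] {N : IntermediateField Ω K}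
    (hN : (⊤ : IntermediateField Ω N).FG) : N.FG := by
  classical
  obtain ⟨S, hS⟩ := hN
  have h2 : (adjoin Ω (S : Set N)).map N.val = adjoin Ω (N.val '' (S : Set N)) :=
    adjoin_map _ _ _
  have h1 : N = adjoin Ω (N.val '' (S : Set N)) := by
    rw [← h2, hS, ← AlgHom.fieldRange_eq_map, fieldRange_val]
  rw [h1]
  exact fg_adjoin_of_finite ((Finset.finite_toSet S).image _)

section

variable {F Ω L : Type} [Field F] [Field Ω] [Algebra F Ω] [Algebra.IsAlgebraic F Ω]
  [Field L] [CharZero L] [IsAlgClosed L] (T : GaloisTheory F Ω L)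

/-- **A finite abelian extension.** -/
theorem noTate_abelian {K : Type} [Field K] [Algebra Ω K] (R : IntermediateField Ω K)
    (hR : R.FG) [FiniteDimensional R K] [IsGalois R K] (hab : ∀ g h : K ≃ₐ[R] K, g * h = h * g)
    (H : ∀ M : IntermediateField R K, IsCyclic (M ≃ₐ[R] M) →
      NoTate T (M.restrictScalars Ω : IntermediateField Ω K)) : NoTate T K := by
  classical
  have hK : (⊤ : IntermediateField Ω K).FG := by
    have h := fg_restrict R hR (⊤ : IntermediateField R K)
    rwa [restrictScalars_top] at h
  let _ : CommGroup (K ≃ₐ[R] K) := { (inferInstance : Group (K ≃ₐ[R] K)) with mul_comm := hab }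
  refine noTate_of_group T hK (G := K ≃ₐ[R] K)
    (fun g => (g : K →ₐ[R] K).restrictScalars Ω) rfl (fun _ _ => rfl) fun χ => ?_
  obtain ⟨M, hM⟩ : ∃ M : IntermediateField R K, M = fixedField χ.ker := ⟨_, rfl⟩
  have h1 := fun t ht => eigen_cyclic T.toBaseTheory R 2 χ t ht
  rw [← hM] at h1
  refine ⟨M.restrictScalars Ω, fg_top_of_fg (fg_restrict R hR M), H M (h1 0 fun g => by simp).1,
    fun k => ?_, fun t ht => ?_⟩
  · exact (Algebra.IsAlgebraic.isAlgebraic (R := M) k : IsAlgebraic M k)
  · obtain ⟨-, s, hs⟩ := h1 t ht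
    let e : M →ₐ[Ω] (M.restrictScalars Ω : IntermediateField Ω K) :=
      { toFun := fun x => ⟨x.1, x.2⟩
        map_one' := rfl
        map_mul' := fun _ _ => rfl
        map_zero' := rfl
        map_add' := fun _ _ => rfl
        commutes' := fun _ => rfl }
    refine ⟨T.map 2 e s, ?_⟩
    have h2 : (M.restrictScalars Ω : IntermediateField Ω K).val.comp e = incl R M := rfl
    have h3 := T.map_comp 2 e (M.restrictScalars Ω : IntermediateField Ω K).val
    rw [h2] at h3
    rw [← hs, h3]
    rfl

end

end Pool.Agent.Helper48.WC
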