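import Pool.Agent.Helper48.WC.Abel
import Pool.Agent.Helper35.WC.Cyclic
import Pool.Agent.Helper35.WC.Row

/-! Project WC. Finite abelian extensions `K / R` and Tate classes: of an intermediate field `M`
with a cyclic group `Gal(M / R)` only the eigenclasses for the faithful characters matter. -/

set_option autoImplicit false

namespace Pool.Agent.Helper48.WC

open IntermediateField Module Pool.Agent.Helper75.QC Pool.Agent.Helper35.TD Pool.Agent.Helper75.WC
  Pool.Agent.Helper35.WC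

section

variable {F Ω L : Type} [Field F] [Field Ω] [Algebra F Ω] [Algebra.IsAlgebraic F Ω]
  [Field L] (T : GaloisTheory F Ω L)

/-- **A finite abelian group of automorphisms**: the eigenclasses suffice. -/
theorem noTate_of_eigen [CharZero L] [IsAlgClosed L] {K : Type} [Field K] [Algebra Ω K]
    (hK : (⊤ : IntermediateField Ω K).FG) {G : Type} [CommGroup G] [Finite G]
    (a : G → (K →ₐ[Ω] K)) (h1 : a 1 = AlgHom.id Ω K) (hmul : ∀ g g', a (g * g') = (a g).comp (a g'))
    (H : ∀ (χ : G →* Lˣ) (U : Subgroup (Ω ≃ₐ[F] Ω)), IsOpen (U : Set (Ω ≃ₐ[F] Ω)) →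
      ∀ γ : (Ω ≃ₐ[F] Ω) → (K →+* K), IsForm U γ → ∀ t : T.H 2 K,
        (∀ g, T.map 2 (a g) t = ((χ g : Lˣ) : L) • t) →
        (∀ τ ∈ U, T.act 2 (γ τ) t = ((T.cyc τ)⁻¹ : Lˣ) • t) → t = 0) :
    NoTate T K := by
  classical
  intro U hU γ hγ t ht
  have : FiniteDimensional L (T.H 2 K) := T.fin 2 K hK
  have hex : ∀ g : G, ∃ V : Subgroup (Ω ≃ₐ[F] Ω), V ≤ U ∧ IsOpen (V : Set (Ω ≃ₐ[F] Ω)) ∧
      ∀ τ ∈ V, ∀ k, a g (γ τ k) = γ τ (a g k) := by
    intro g
    obtain ⟨V, h1, -, h2, h3⟩ := exists_equivariant hK (a g) U hU γ hγ U hU γ hγ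
    exact ⟨V, h1, h2, h3⟩
  choose V hVU hV hcomm using hex
  obtain ⟨W, hW⟩ : ∃ W : Subgroup (Ω ≃ₐ[F] Ω), W = ⨅ g, V g := ⟨_, rfl⟩
  have hWV : ∀ g, W ≤ V g := fun g => by
    rw [hW]
    exact iInf_le _ g
  have hWU : W ≤ U := (hWV 1).trans (hVU 1)
  have hWo : IsOpen (W : Set (Ω ≃ₐ[F] Ω)) := by
    rw [hW, Subgroup.coe_iInf]
    exact isOpen_iInter_of_finite fun g => hV g
  have hform : IsForm W γ := hγ.mono hWU
  have hactcomm : ∀ g, ∀ τ ∈ W, ∀ r : T.H 2 K,
      T.act 2 (γ τ) (T.map 2 (a g) r) = T.map 2 (a g) (T.act 2 (γ τ) r) := by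
    intro g τ hτ r
    have hid : IsOver (RingEquiv.refl Ω) (a g : K →+* K) := fun b => (a g).commutes b
    have e1 : (γ τ).comp (a g : K →+* K) = (a g : K →+* K).comp (γ τ) :=
      RingHom.ext fun k => (hcomm g τ (hWV g hτ) k).symm
    have e2 := LinearMap.congr_fun (T.act_comp 2 (τ : Ω ≃+* Ω) (RingEquiv.refl Ω) (γ τ)
      (a g : K →+* K) (hform.1 τ hτ) hid) r
    have e3 := LinearMap.congr_fun (T.act_comp 2 (RingEquiv.refl Ω) (τ : Ω ≃+* Ω)
      (a g : K →+* K) (γ τ) hid (hform.1 τ hτ)) r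
    rw [e1, e3, LinearMap.comp_apply, LinearMap.comp_apply, T.act_map] at e2
    exact e2.symm
  obtain ⟨P, hP⟩ : ∃ P : Submodule L (T.H 2 K), ∀ t, t ∈ P ↔ ∀ τ ∈ W,
      T.act 2 (γ τ) t = ((T.cyc τ)⁻¹ : Lˣ) • t :=
    ⟨{ carrier := {t | ∀ τ ∈ W, T.act 2 (γ τ) t = ((T.cyc τ)⁻¹ : Lˣ) • t}
       add_mem' := fun {a b} ha hb τ hτ => by rw [map_add, ha τ hτ, hb τ hτ, smul_add]
       zero_mem' := fun τ _ => by rw [map_zero, smul_zero]
       smul_mem' := fun c a ha τ hτ => by rw [map_smul, ha τ hτ, smul_comm] },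
      fun t => Iff.rfl⟩
  have hPst : ∀ (g : G), ∀ r ∈ P, T.map 2 (a g) r ∈ P := by
    intro g r hr
    rw [hP] at hr ⊢
    intro τ hτ
    rw [hactcomm g τ hτ, hr τ hτ, Units.smul_def, Units.smul_def, map_smul]
  let ρ : G →* End L P :=
    { toFun := fun g => (T.map 2 (a g)).restrict (hPst g)
      map_one' := by
        ext r
        show T.map 2 (a 1) (r : T.H 2 K) = r
        rw [h1, T.map_id]
        rfl
      map_mul' := fun g g' => by
        ext r
        show T.map 2 (a (g * g')) (r : T.H 2 K) = T.map 2 (a g) (T.map 2 (a g') r)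
        rw [hmul, T.map_comp]
        rfl }
  have key : (⊥ : Submodule L P) = ⊤ := by
    refine Pool.Agent.Helper73.QW.top_of_group ρ (fun g g' => ?_) ⊥ ?_
    · show ρ g * ρ g' = ρ g' * ρ g
      rw [← map_mul, ← map_mul, mul_comm]
    · intro χ r hr
      rw [Submodule.mem_bot]
      apply Subtype.ext
      exact H χ W hWo γ hform (r : T.H 2 K) (fun g => congrArg Subtype.val (hr g)) ((hP _).1 r.2)
  have hmem : t ∈ P := (hP t).2 fun τ hτ => ht τ (hWU hτ)
  have h3 : (⟨t, hmem⟩ : P) ∈ (⊥ : Submodule L P) := by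
    rw [key]
    exact Submodule.mem_top
  exact congrArg Subtype.val ((Submodule.mem_bot L).1 h3)

/-- There are no Tate classes in the eigenspaces of the faithful characters of the Galois group. -/
def Faithful {K : Type} [Field K] [Algebra Ω K] (R : IntermediateField Ω K)
    (M : IntermediateField R K) : Prop :=
  ∀ (U : Subgroup (Ω ≃ₐ[F] Ω)), IsOpen (U : Set (Ω ≃ₐ[F] Ω)) →
    ∀ γ : (Ω ≃ₐ[F] Ω) → (M →+* M), IsForm U γ → ∀ (c : (M ≃ₐ[R] M) → L),
      Function.Injective c → ∀ t : T.H 2 M,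
        (∀ g : M ≃ₐ[R] M, T.map 2 ((g : M →ₐ[R] M).restrictScalars Ω) t = c g • t) →
        (∀ τ ∈ U, T.act 2 (γ τ) t = ((T.cyc τ)⁻¹ : Lˣ) • t) → t = 0

/-- **A finite abelian extension.** -/
theorem noTate_faithful [CharZero L] [IsAlgClosed L] {K : Type} [Field K] [Algebra Ω K]
    (R : IntermediateField Ω K) (hR : R.FG) [FiniteDimensional R K] [IsGalois R K]
    (hab : ∀ g h : K ≃ₐ[R] K, g * h = h * g)
    (H : ∀ M : IntermediateField R K, IsCyclic (M ≃ₐ[R] M) → NoTate T M ∨ Faithful T R M) :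
    NoTate T K := by
  classical
  have hK : (⊤ : IntermediateField Ω K).FG := by
    have h := fg_restrict R hR (⊤ : IntermediateField R K)
    rwa [restrictScalars_top] at h
  have hMfg : ∀ M : IntermediateField R K, (⊤ : IntermediateField Ω M).FG := by
    intro M
    obtain ⟨S, hS⟩ := fg_top_of_fg (fg_restrict R hR M)
    let e : (M.restrictScalars Ω : IntermediateField Ω K) →ₐ[Ω] M :=
      { toFun := fun x => ⟨x.1, x.2⟩
        map_one' := rfl
        map_mul' := fun _ _ => rfl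
        map_zero' := rfl
        map_add' := fun _ _ => rfl
        commutes' := fun _ => rfl }
    have h1 : adjoin Ω (e '' (S : Set _)) = ⊤ := by
      rw [← adjoin_map, hS, eq_top_iff]
      intro x _
      exact ⟨⟨x.1, x.2⟩, mem_top, rfl⟩
    rw [← h1]
    exact fg_adjoin_of_finite (S.finite_toSet.image _)
  let _ : CommGroup (K ≃ₐ[R] K) := { (inferInstance : Group (K ≃ₐ[R] K)) with mul_comm := hab }
  refine noTate_of_eigen T hK (G := K ≃ₐ[R] K)
    (fun g => (g : K →ₐ[R] K).restrictScalars Ω) rfl (fun _ _ => rfl) fun χ U hU γ hγ t ht hT => ?_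
  obtain ⟨M, hM⟩ : ∃ M : IntermediateField R K, M = fixedField χ.ker := ⟨_, rfl⟩
  have h1 := eigen_cyclic T.toBaseTheory R 2 χ t ht
  rw [← hM] at h1
  obtain ⟨hcyc, s, hs⟩ := h1
  have halg : ∀ k : K, IsAlgebraic (incl R M).fieldRange k := by
    intro k
    have h2 : IsAlgebraic M k := Algebra.IsAlgebraic.isAlgebraic k
    let f : M →+* (incl R M).fieldRange :=
      { toFun := fun m => ⟨m, m, rfl⟩
        map_one' := rfl
        map_mul' := fun _ _ => rfl
        map_zero' := rfl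
        map_add' := fun _ _ => rfl }
    let _ : Algebra M (incl R M).fieldRange := f.toAlgebra
    have : IsScalarTower M (incl R M).fieldRange K := .of_algebraMap_eq fun _ => rfl
    exact h2.tower_top _
  rcases H M hcyc with h | h
  · exact zero_of_range T (hMfg M) h (incl R M) halg U hU γ hγ t hT s hs
  obtain ⟨W, hW, γ₀, hform⟩ := exists_form_fg (F := F) (hMfg M)
  obtain ⟨V, hVU, hVW, hV, hcomp⟩ :=
    exists_equivariant (hMfg M) (incl R M) U hU γ hγ W hW γ₀ hform
  -- a lift of every automorphism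
  have hnormal : Normal R M := by
    rw [hM]
    have : (χ.ker).Normal := inferInstance
    infer_instance
  have hsurj : ∀ g : M ≃ₐ[R] M, ∃ g' : K ≃ₐ[R] K, AlgEquiv.restrictNormalHom M g' = g :=
    AlgEquiv.restrictNormalHom_surjective K
  choose lift hlift using hsurj
  have hres : ∀ (g' : K ≃ₐ[R] K) (m : M),
      ((AlgEquiv.restrictNormalHom M g' m : M) : K) = g' m := by
    intro g' m
    exact AlgEquiv.restrictNormal_commutes g' M m
  have hs0 : s = 0 := by
    refine h V hV γ₀ (hform.mono hVW) (fun g => ((χ (lift g) : Lˣ) : L)) ?_ s ?_ ?_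
    · intro g g' hgg
      have h2 : χ (lift g) = χ (lift g') := Units.ext hgg
      have h3 : (lift g) * (lift g')⁻¹ ∈ χ.ker := by
        rw [MonoidHom.mem_ker, map_mul, map_inv, h2, mul_inv_cancel]
      rw [← fixingSubgroup_fixedField χ.ker, ← hM, IntermediateField.mem_fixingSubgroup_iff] at h3
      rw [← hlift g, ← hlift g']
      ext m
      rw [hres, hres]
      obtain ⟨m', hm'⟩ : ∃ m' : M, m' = AlgEquiv.restrictNormalHom M (lift g') m := ⟨_, rfl⟩
      have h4 := h3 m' m'.2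
      rw [AlgEquiv.mul_apply, hm', hres] at h4
      have h5 : (lift g')⁻¹ ((lift g') (m : K)) = m := by
        rw [← AlgEquiv.mul_apply, inv_mul_cancel]
        rfl
      rw [h5] at h4
      exact h4
    · intro g
      apply T.inj 2 (incl R M) halg
      have h2 : (incl R M).comp ((g : M →ₐ[R] M).restrictScalars Ω) =
          (((lift g : K ≃ₐ[R] K) : K →ₐ[R] K).restrictScalars Ω).comp (incl R M) := by
        refine AlgHom.ext fun m => ?_
        change ((g m : M) : K) = lift g (m : K)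
        rw [← hres, hlift]
      have h3 := T.map_comp 2 ((g : M →ₐ[R] M).restrictScalars Ω) (incl R M)
      have h4 := T.map_comp 2 (incl R M) (((lift g : K ≃ₐ[R] K) : K →ₐ[R] K).restrictScalars Ω)
      rw [h2, h4] at h3
      have h5 := LinearMap.congr_fun h3 s
      rw [LinearMap.comp_apply, LinearMap.comp_apply, hs, ht] at h5
      rw [← h5, map_smul, hs]
    · intro τ hτ
      apply T.inj 2 (incl R M) halg
      have hid : IsOver (RingEquiv.refl Ω) (incl R M : M →+* K) := fun a => (incl R M).commutes a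
      have h1 : (γ τ).comp (incl R M : M →+* K) = (incl R M : M →+* K).comp (γ₀ τ) :=
        RingHom.ext fun k => (hcomp τ hτ k).symm
      have h2 := LinearMap.congr_fun (T.act_comp 2 (τ : Ω ≃+* Ω) (RingEquiv.refl Ω) (γ τ)
        (incl R M : M →+* K) (hγ.1 τ (hVU hτ)) hid) s
      have h3 := LinearMap.congr_fun (T.act_comp 2 (RingEquiv.refl Ω) (τ : Ω ≃+* Ω)
        (incl R M : M →+* K) (γ₀ τ) hid (hform.1 τ (hVW hτ))) s
      rw [h1, h3, LinearMap.comp_apply, LinearMap.comp_apply, T.act_map, hs, hT τ (hVU hτ),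
        ← hs, Units.smul_def, ← map_smul] at h2
      exact h2
  rw [← hs, hs0, map_zero]

omit [Algebra.IsAlgebraic F Ω] in
/-- **One eigenspace.** A Tate class in an eigenspace of `w ^ n ∈ Ω(x, y)`, if the threefold
`v ^ α (1 - v) ^ β = s ^ n w ^ n` is uniruled and the eigenvalue is not exceptional. -/
theorem zero_of_eigen [IsAlgClosed Ω] [CharZero L] [IsAlgClosed L] {n α β : ℕ}
    (hn : 0 < n) (hn' : (n : Ω) ≠ 0) (hab : (α.gcd β).Coprime n) {K : Type} [Field K] [Algebra Ω K]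
    (x y w : K) (hK : adjoin Ω {x, y, w} = ⊤) (hw0 : w ≠ 0) (hw : w ^ n ∈ adjoin Ω {x, y})
    (hdeg : Module.finrank (adjoin Ω {x, y}) K = n)
    (huni : ∀ (N : Type) [Field N] [Algebra Ω N] (g : K →ₐ[Ω] N) (v s : N),
      Transcendental g.fieldRange v → v ^ α * (1 - v) ^ β = s ^ n * g w ^ n →
      Uniruled Ω (adjoin Ω {g x, g y, v, s} : IntermediateField Ω N) 3)
    {ζ : Ω} (hζ : IsPrimitiveRoot ζ n) (σ : K →ₐ[Ω] K)
    (hσ : σ x = x ∧ σ y = y ∧ σ w = algebraMap Ω K ζ * w) (V : Subgroup (Ω ≃ₐ[F] Ω))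
    (hV : IsOpen (V : Set (Ω ≃ₐ[F] Ω))) (γ : (Ω ≃ₐ[F] Ω) → (K →+* K)) (hform : IsForm V γ)
    (s : T.H 2 K) (hs : ∀ τ ∈ V, T.act 2 (γ τ) s = ((T.cyc τ)⁻¹ : Lˣ) • s)
    (ξ : L) (hξs : T.map 2 σ s = ξ • s) (hξn : ξ ^ n = 1) (h1 : ξ ^ α ≠ 1) (h2 : ξ ^ β ≠ 1)
    (h3 : ξ ^ (α + β) ≠ 1) : s = 0 := by
  classical
  have hfin : (⊤ : IntermediateField Ω K).FG := by
    rw [← hK]
    exact fg_adjoin_of_finite (Set.toFinite _)
  have : FiniteDimensional L (T.H 2 K) := T.fin 2 K hfin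
  have halgF : ∀ k : K, k ∈ Acl Ω {x, y} := by
    intro k
    have : FiniteDimensional (adjoin Ω {x, y}) K :=
      Module.finite_of_finrank_pos (by rw [hdeg]; exact hn)
    exact Algebra.IsAlgebraic.isAlgebraic k
  have hξ0 : ξ ≠ 0 := by
    rintro rfl
    rw [zero_pow hn.ne'] at hξn
    exact zero_ne_one hξn
  have hinv : ∀ j : ℕ, ξ ^ j ≠ 1 → ξ⁻¹ ^ j ≠ 1 := by
    intro j hj h
    apply hj
    rwa [inv_pow, inv_eq_one] at h
  obtain ⟨C, N, iC, jC, iN, jN, v, u, a, b, hv, hu, hC, hbv, hN, hsig, -, hpsi⟩ :=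
    exists_curve_ab (Ω := Ω) (α := α) (β := β) hn hab K
  obtain ⟨σ', hσ'⟩ := hsig ζ hζ.pow_eq_one
  choose γ' hγ' using fun τ : Ω ≃ₐ[F] Ω => hpsi (τ : Ω ≃+* Ω)
  have hfinC : (⊤ : IntermediateField Ω C).FG := by
    rw [← hC]
    exact fg_adjoin_of_finite (Set.toFinite _)
  obtain ⟨z, hz0, hz⟩ := T.curve C n α β ζ v u σ' hn' hζ hv hu hC hσ'.1 hσ'.2 ξ⁻¹
    (by rw [inv_pow, hξn, inv_one]) (hinv _ h1) (hinv _ h2) (hinv _ h3)
  have huni' : ∀ z : T.H 3 (adjoin Ω {a x, a y, b v, b u / a w} : IntermediateField Ω N), z = 0 := by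
    apply T.uniruled
    refine huni N a (b v) (b u / a w) hbv ?_
    have h2 : b u ^ n = b v ^ α * (1 - b v) ^ β := by
      rw [← map_pow, hu, map_mul, map_pow, map_pow, map_sub, map_one]
    have h3 : a w ≠ 0 := fun h => hw0 (a.injective (h.trans (map_zero a).symm))
    rw [div_pow, h2, div_mul_cancel₀ _ (pow_ne_zero _ h3)]
  refine T.eq_zero_of_cup a b x y v V γ γ' hfin hfinC halgF ?_ hbv hV hform ?_ s hs z hz0 ?_
  · intro k
    rw [← mem_AF]
    have h1 : adjoin Ω {v, u} ≤ AF Ω {v} := by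
      rw [adjoin_le_iff]
      have hvm : v ∈ AF Ω {v} := subset_AF _ (by simp)
      rintro k (rfl | rfl)
      · exact hvm
      · apply AF_root hn
        rw [hu]
        exact mul_mem (pow_mem hvm _) (pow_mem (sub_mem (one_mem _) hvm) _)
    apply h1
    rw [hC]
    exact mem_top
  · refine isForm_of_gens (fun τ _ => (hγ' τ).1) {v, u} hC fun τ _ k hk => ?_
    rcases hk with rfl | rfl
    · exact (hγ' τ).2.1
    · exact (hγ' τ).2.2
  · exact cross_zero T.toBaseTheory hn hn' hζ a b x y w v u hK hC hN hw0 hw σ hσ σ' hσ' huni'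
      ξ hξ0 s hξs z hz

omit [Algebra.IsAlgebraic F Ω] in
/-- **The eigenspaces of the faithful characters** of a Kummer extension of `Ω(x, y)`. -/
theorem faithful_kummer [IsAlgClosed Ω] [CharZero L] [IsAlgClosed L] {K : Type} [Field K]
    [Algebra Ω K] (R : IntermediateField Ω K) (M : IntermediateField R K) [FiniteDimensional R M]
    {n α β : ℕ} (hn : 0 < n) (hn' : (n : Ω) ≠ 0) (hab : (α.gcd β).Coprime n) (h1 : ¬ n ∣ α)
    (h2 : ¬ n ∣ β) (h3 : ¬ n ∣ α + β) (x y w : M) (hK : adjoin Ω {x, y, w} = ⊤)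
    (hR : ∀ r : R, algebraMap R M r ∈ adjoin Ω {x, y})
    (hdeg : Module.finrank (adjoin Ω {x, y}) M = n) (hw0 : w ≠ 0) (hw : w ^ n ∈ adjoin Ω {x, y})
    (huni : ∀ (N : Type) [Field N] [Algebra Ω N] (g : M →ₐ[Ω] N) (v s : N),
      Transcendental g.fieldRange v → v ^ α * (1 - v) ^ β = s ^ n * g w ^ n →
      Uniruled Ω (adjoin Ω {g x, g y, v, s} : IntermediateField Ω N) 3) : Faithful T R M := by
  classical
  intro U hU γ hγ c hc t ht hT
  by_contra ht0
  have : NeZero (n : Ω) := ⟨hn'⟩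
  obtain ⟨ζ, hζ⟩ : ∃ ζ : Ω, IsPrimitiveRoot ζ n :=
    HasEnoughRootsOfUnity.exists_primitiveRoot Ω n
  obtain ⟨σ, hσ⟩ := kummer_sigma hn hn' hζ.pow_eq_one x y w hK hw hdeg
  have hσR : ∀ r : R, σ (algebraMap R M r) = algebraMap R M r := fun r =>
    fix_adjoin σ {x, y} (by
      rintro c (rfl | rfl)
      · exact hσ.1
      · exact hσ.2.1) (hR r)
  let σR : M →ₐ[R] M := { toRingHom := (σ : M →+* M), commutes' := hσR }
  let g : M ≃ₐ[R] M := AlgEquiv.ofBijective σR
    ⟨(σ : M →+* M).injective, (LinearMap.injective_iff_surjective (f := σR.toLinearMap)).1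
      (σ : M →+* M).injective⟩
  have hg : ∀ m, g m = σ m := fun m => rfl
  have hgσ : ((g : M →ₐ[R] M).restrictScalars Ω) = σ := AlgHom.ext fun m => rfl
  have hξ : T.map 2 σ t = c g • t := by
    rw [← hgσ]
    exact ht g
  -- the powers
  have hpow : ∀ j : ℕ, T.map 2 (((g ^ j : M ≃ₐ[R] M) : M →ₐ[R] M).restrictScalars Ω) t =
      c g ^ j • t := by
    intro j
    induction j with
    | zero =>
      rw [pow_zero, pow_zero, one_smul]
      exact LinearMap.congr_fun (T.map_id 2 M) t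
    | succ j ih =>
      have e1 : (((g ^ (j + 1) : M ≃ₐ[R] M) : M →ₐ[R] M).restrictScalars Ω) =
          σ.comp (((g ^ j : M ≃ₐ[R] M) : M →ₐ[R] M).restrictScalars Ω) := by
        refine AlgHom.ext fun m => ?_
        change (g ^ (j + 1)) m = σ ((g ^ j) m)
        rw [pow_succ', AlgEquiv.mul_apply, hg]
      rw [e1, T.map_comp, LinearMap.comp_apply, ih, map_smul, hξ, smul_smul, pow_succ]
  have hgw : ∀ j : ℕ, (g ^ j) w = algebraMap Ω M (ζ ^ j) * w := by
    intro j
    induction j with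
    | zero => simp
    | succ j ih =>
      rw [pow_succ', AlgEquiv.mul_apply, ih, hg, map_mul, AlgHom.commutes, hσ.2.2, pow_succ,
        map_mul]
      ring
  have hcancel : ∀ a b : L, a • t = b • t → a = b := by
    intro a b hab
    have h4 : (a - b) • t = 0 := by rw [sub_smul, hab, sub_self]
    exact sub_eq_zero.1 ((smul_eq_zero.1 h4).resolve_right ht0)
  have hord : ∀ j : ℕ, c g ^ j = 1 → n ∣ j := by
    intro j h
    have e1 := hpow j
    rw [ht (g ^ j)] at e1
    have e2 := hcancel _ _ e1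
    have e3 := hpow 0
    rw [ht (g ^ 0), pow_zero] at e3
    have e4 := hcancel _ _ e3
    rw [pow_zero] at e4
    have e5 : g ^ j = 1 := hc (by rw [e2, h, e4])
    have e6 := hgw j
    rw [e5, AlgEquiv.one_apply] at e6
    have e7 : algebraMap Ω M (ζ ^ j) = 1 := by
      have := mul_right_cancel₀ hw0 ((one_mul w).trans e6)
      exact this.symm
    rw [← map_one (algebraMap Ω M)] at e7
    exact (hζ.pow_eq_one_iff_dvd j).1 ((algebraMap Ω M).injective e7)
  have hξn : c g ^ n = 1 := by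
    have e1 : ∀ j : ℕ, (T.map 2 σ ^ j : Module.End L (T.H 2 M)) t = c g ^ j • t := by
      intro j
      induction j with
      | zero => simp
      | succ j ih =>
        rw [pow_succ, Module.End.mul_apply, hξ, map_smul, ih, smul_smul, pow_succ, mul_comm]
    have e2 := e1 n
    rw [← tmap_pow75, sigma_order75 hζ.pow_eq_one x y w hK σ hσ] at e2
    have e3 : T.map 2 (1 : M →ₐ[Ω] M) t = t := LinearMap.congr_fun (T.map_id 2 M) t
    rw [e3] at e2
    exact hcancel _ _ (by rw [← e2, one_smul])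
  exact ht0 (zero_of_eigen T hn hn' hab x y w hK hw0 hw hdeg huni hζ σ hσ U hU γ hγ t hT (c g) hξ
    hξn (fun h => h1 (hord _ h)) (fun h => h2 (hord _ h)) (fun h => h3 (hord _ h)))

end

end Pool.Agent.Helper48.WC
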